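import Pool.Agent.Lib.MP_eeed5c_co_U.TEa

/-!
# The coefficients of the reversed numerator

PROOF. `W_coeff`: `X * A'` has the coefficients `a A_a`, so for every `j`
  `(A * B' - C q * A' * B).coeff j = ∑ (a, b) ∈ antidiagonal (j + 1), (b - q a) A_a B_b`
  (`coeff_mul`, multiply by `X`: `coeff_X_mul`; or `derivative` coefficient formulas and
  `Finset.Nat.sum_antidiagonal_succ`, ...). Apply it to `A = Lp r`, `B = mp G`, `j = n + r - 2 - l`,
  `n = q r`: `Dh l = r ∑_{a + b = n + r - 1 - l} (q a - b) L_a m_b`, where only `a ≤ r`, `b ≤ n`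
  contribute. Apply it to `A = KP r`, `B = MP n G`, `j = l`:
  `(DP).coeff l = - r ∑_{h + t = l + 1} (q h - t) K_h M_t`, where only `h ≤ r`, `t ≤ n` contribute.
  The substitution `a = r - h`, `b = n - t` (`sum_bij_ne_zero` or filtered sums and
  `sum_nbij'`) gives `q a - b = q r - q h - n + t = t - q h` and identifies both sums. For
  `l + 2 > n + r`, i.e. `l + 1 ≥ n + r`, the only pair with `h ≤ r`, `t ≤ n`, `h + t = l + 1` is
  `(r, n)` (when `l + 1 = n + r`), and its factor is `q r - n = 0`.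
-/

set_option autoImplicit false

namespace Pool.Agent.Lib.MP_eeed5c_coU

open Finset Pool.Agent.Lib.MP_eeed5c_co Pool.Agent.Lib.MP_eeed5c_coT

theorem TEb_Xder (B : Polynomial ℝ) (b : ℕ) :
    (Polynomial.X * B.derivative).coeff b = (b : ℝ) * B.coeff b := by
  rcases b with _ | b
  · simp
  · rw [Polynomial.coeff_X_mul, Polynomial.coeff_derivative]
    push_cast
    ring

theorem W_coeff (c : ℝ) (A B : Polynomial ℝ) (j : ℕ) :
    (A * B.derivative - Polynomial.C c * A.derivative * B).coeff j =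
      ∑ p ∈ antidiagonal (j + 1), ((p.2 : ℝ) - c * p.1) * A.coeff p.1 * B.coeff p.2 := by
  rw [← Polynomial.coeff_X_mul]
  have e : Polynomial.X * (A * B.derivative - Polynomial.C c * A.derivative * B) =
      A * (Polynomial.X * B.derivative) - Polynomial.C c * ((Polynomial.X * A.derivative) * B) := by
    ring
  rw [e, Polynomial.coeff_sub, Polynomial.coeff_C_mul, Polynomial.coeff_mul, Polynomial.coeff_mul,
    Finset.mul_sum, ← Finset.sum_sub_distrib]
  refine Finset.sum_congr rfl fun p _ => ?_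
  rw [TEb_Xder, TEb_Xder]
  ring

variable {V : Type*} [Fintype V]

theorem TEb_DP {r q : ℕ} {G : SimpleGraph V} (hV : Fintype.card V = 2 * (q * r)) (l : ℕ) :
    (DP r q G).coeff l = (r : ℝ) * ∑ p ∈ antidiagonal (l + 1), ((p.2 : ℝ) - q * p.1) *
      Kh r p.1 * Mh (q * r) G p.2 := by
  unfold DP
  rw [Polynomial.coeff_C_mul, W_coeff]
  congr 1
  refine Finset.sum_congr rfl fun p _ => ?_
  rw [KP_coeff, MP_coeff hV]

theorem TEb_Dh (r q : ℕ) (G : SimpleGraph V) (l : ℕ) :
    Dh r q G l = -((r : ℝ) * ∑ p ∈ antidiagonal (q * r + r - 2 - l + 1), ((p.2 : ℝ) - q * p.1) *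
      ell r p.1 * (mats G p.2).card) := by
  unfold Dh Dp
  have e : Polynomial.C ((q : ℝ) * r) * (Lp r).derivative * mp G -
      Polynomial.C (r : ℝ) * Lp r * (mp G).derivative =
      -(Polynomial.C (r : ℝ) * (Lp r * (mp G).derivative -
        Polynomial.C (q : ℝ) * (Lp r).derivative * mp G)) := by
    rw [Polynomial.C_mul]
    ring
  rw [e, Polynomial.coeff_neg, Polynomial.coeff_C_mul, W_coeff]
  congr 2
  refine Finset.sum_congr rfl fun p _ => ?_
  rw [Lp_coeff, mp_coeff]

theorem DP_coeff {r q : ℕ} {G : SimpleGraph V} (hV : Fintype.card V = 2 * (q * r)) {l : ℕ}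
    (hl : l + 2 ≤ q * r + r) : (DP r q G).coeff l = Dh r q G l := by
  rw [TEb_DP hV, TEb_Dh, ← mul_neg]
  congr 1
  have hN : q * r + r - 2 - l + 1 + (l + 1) = q * r + r := by omega
  set N := q * r + r - 2 - l + 1 with hNdef
  have h1 : ∑ p ∈ antidiagonal (l + 1), ((p.2 : ℝ) - q * p.1) * Kh r p.1 * Mh (q * r) G p.2 =
      ∑ p ∈ (antidiagonal (l + 1)).filter (fun p => p.1 ≤ r ∧ p.2 ≤ q * r),
        ((p.2 : ℝ) - q * p.1) * Kh r p.1 * Mh (q * r) G p.2 := by
    symm
    refine Finset.sum_filter_of_ne fun p _ hne => ?_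
    by_contra hcon
    apply hne
    rw [not_and_or] at hcon
    rcases hcon with h | h
    · have : Kh r p.1 = 0 := if_neg h
      rw [this, mul_zero, zero_mul]
    · have : Mh (q * r) G p.2 = 0 := if_neg h
      rw [this, mul_zero]
  have h2 : ∑ p ∈ antidiagonal N, ((p.2 : ℝ) - q * p.1) * ell r p.1 * (mats G p.2).card =
      ∑ p ∈ (antidiagonal N).filter (fun p => p.1 ≤ r ∧ p.2 ≤ q * r),
        ((p.2 : ℝ) - q * p.1) * ell r p.1 * (mats G p.2).card := by
    symm
    refine Finset.sum_filter_of_ne fun p _ hne => ?_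
    by_contra hcon
    apply hne
    rw [not_and_or] at hcon
    rcases hcon with h | h
    · rw [ell_eq_zero (by omega), mul_zero, zero_mul]
    · rw [card_mats_eq_zero (by omega)]
      simp
  rw [h1, h2, ← Finset.sum_neg_distrib]
  refine Finset.sum_nbij' (fun p => (r - p.1, q * r - p.2)) (fun p => (r - p.1, q * r - p.2))
    ?_ ?_ ?_ ?_ ?_
  · intro p hp
    rw [Finset.mem_filter, Finset.HasAntidiagonal.mem_antidiagonal] at hp
    rw [Finset.mem_filter, Finset.HasAntidiagonal.mem_antidiagonal]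
    dsimp only
    omega
  · intro p hp
    rw [Finset.mem_filter, Finset.HasAntidiagonal.mem_antidiagonal] at hp
    rw [Finset.mem_filter, Finset.HasAntidiagonal.mem_antidiagonal]
    dsimp only
    omega
  · intro p hp
    rw [Finset.mem_filter, Finset.HasAntidiagonal.mem_antidiagonal] at hp
    dsimp only
    ext
    · dsimp only
      omega
    · dsimp only
      omega
  · intro p hp
    rw [Finset.mem_filter, Finset.HasAntidiagonal.mem_antidiagonal] at hp
    dsimp only
    ext
    · dsimp only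
      omega
    · dsimp only
      omega
  · intro p hp
    rw [Finset.mem_filter, Finset.HasAntidiagonal.mem_antidiagonal] at hp
    obtain ⟨_, hp1, hp2⟩ := hp
    have k1 : Kh r p.1 = ell r (r - p.1) := if_pos hp1
    have k2 : Mh (q * r) G p.2 = ((mats G (q * r - p.2)).card : ℝ) := if_pos hp2
    dsimp only
    rw [k1, k2, Nat.cast_sub hp1, Nat.cast_sub hp2]
    push_cast
    ring

theorem DP_coeff_high {r q : ℕ} {G : SimpleGraph V} (hV : Fintype.card V = 2 * (q * r)) {l : ℕ}
    (hl : q * r + r < l + 2) : (DP r q G).coeff l = 0 := by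
  rw [TEb_DP hV]
  have : ∑ p ∈ antidiagonal (l + 1), ((p.2 : ℝ) - q * p.1) * Kh r p.1 * Mh (q * r) G p.2 = 0 := by
    refine Finset.sum_eq_zero fun p hp => ?_
    rw [Finset.HasAntidiagonal.mem_antidiagonal] at hp
    by_cases h1 : p.1 ≤ r
    · by_cases h2 : p.2 ≤ q * r
      · have e1 : p.1 = r := by omega
        have e2 : p.2 = q * r := by omega
        rw [e1, e2]
        push_cast
        ring
      · have : Mh (q * r) G p.2 = 0 := if_neg h2
        rw [this, mul_zero]
    · have : Kh r p.1 = 0 := if_neg h1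
      rw [this, mul_zero, zero_mul]
  rw [this, mul_zero]

end Pool.Agent.Lib.MP_eeed5c_coU
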