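import Mathlib

/-!
# The comparison functions

PROOF. Let `n = q r`, `a = (q+1) r`, `K = KP r`, `M = MP n G`, `D = DP r q G`.

* `Tl_hasDeriv`, `Tl_zero`, `Tl_tendsto`: `Tl a l s = exp (-a s) ∑_{i ≤ l} (l!/i!) s^i / a^(l+1-i)`; its
  derivative is `- s^l exp (-a s)` (the sum of the two products telescopes), its value at `0` is
  `l! / a^(l+1)`, and it tends to zero at infinity (`Real.tendsto_pow_mul_exp_neg_atTop_nhds_zero` after scaling;
  e.g. `tendsto_finset_sum` and `s^i exp(-a s) = a^(-i) (a s)^i exp (-(a s))`).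
-/

set_option autoImplicit false

namespace Pool.Agent.Lib.MP_eeed5c_coU

open Finset

/-- The comparison function. -/
noncomputable def Tl (a : ℝ) (l : ℕ) (s : ℝ) : ℝ :=
  Real.exp (-(a * s)) * ∑ i ∈ range (l + 1),
    (l.factorial : ℝ) / i.factorial * s ^ i / a ^ (l + 1 - i)

theorem TGa_zero (a s : ℝ) : Tl a 0 s = Real.exp (-(a * s)) * (1 / a) := by
  unfold Tl
  rw [Finset.sum_range_one, Nat.factorial_zero, Nat.cast_one, div_one, pow_zero, mul_one, zero_add, Nat.sub_zero,
    pow_one]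

theorem TGa_rec {a : ℝ} (ha : 0 < a) (l : ℕ) (s : ℝ) : Tl a (l + 1) s =
    ((l : ℝ) + 1) / a * Tl a l s + Real.exp (-(a * s)) * (s ^ (l + 1) / a) := by
  unfold Tl
  rw [Finset.sum_range_succ, mul_add]
  congr 1
  · rw [mul_left_comm]
    refine congrArg (fun x => Real.exp (-(a * s)) * x) ?_
    rw [Finset.mul_sum]
    refine Finset.sum_congr rfl fun i hi => ?_
    rw [Finset.mem_range] at hi
    have h1 : l + 1 + 1 - i = (l + 1 - i) + 1 := by omega
    rw [h1, Nat.factorial_succ, pow_succ]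
    push_cast
    have h2 : (i.factorial : ℝ) ≠ 0 := Nat.cast_ne_zero.2 (Nat.factorial_ne_zero i)
    have h3 : a ≠ 0 := ha.ne'
    field_simp
  · have h1 : l + 1 + 1 - (l + 1) = 1 := by omega
    have h2 : ((l + 1).factorial : ℝ) ≠ 0 := Nat.cast_ne_zero.2 (Nat.factorial_ne_zero _)
    rw [h1, pow_one, div_self h2, one_mul]

theorem Tl_hasDeriv {a : ℝ} (ha : 0 < a) (l : ℕ) (s : ℝ) :
    HasDerivAt (Tl a l) (-(s ^ l * Real.exp (-(a * s)))) s := by
  have he : HasDerivAt (fun s => Real.exp (-(a * s))) (Real.exp (-(a * s)) * (-a)) s := by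
    have h1 : HasDerivAt (fun s : ℝ => -(a * s)) (-a) s := by
      have h2 := ((hasDerivAt_id s).const_mul a).neg
      rw [mul_one] at h2
      exact h2
    exact h1.exp
  have ha' : a ≠ 0 := ha.ne'
  induction l with
  | zero =>
    have h1 : Tl a 0 = fun s => Real.exp (-(a * s)) * (1 / a) := funext fun s => TGa_zero a s
    rw [h1]
    refine (he.mul_const (1 / a)).congr_deriv ?_
    rw [pow_zero, one_mul]
    field_simp
  | succ l ih =>
    have h1 : Tl a (l + 1) = fun s => ((l : ℝ) + 1) / a * Tl a l s + Real.exp (-(a * s)) * (s ^ (l + 1) / a) :=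
      funext fun s => TGa_rec ha l s
    rw [h1]
    have h2 : HasDerivAt (fun s : ℝ => s ^ (l + 1) / a) (((l : ℝ) + 1) * s ^ l / a) s := by
      have h3 := (hasDerivAt_pow (l + 1) s).div_const a
      refine h3.congr_deriv ?_
      rw [Nat.add_sub_cancel]
      push_cast
      rfl
    refine ((ih.const_mul (((l : ℝ) + 1) / a)).add (he.mul h2)).congr_deriv ?_
    rw [pow_succ]
    field_simp
    ring

theorem Tl_zero {a : ℝ} (ha : 0 < a) (l : ℕ) : Tl a l 0 = l.factorial / a ^ (l + 1) := by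
  have ha' : a ≠ 0 := ha.ne'
  induction l with
  | zero =>
    rw [TGa_zero, mul_zero, neg_zero, Real.exp_zero, one_mul, Nat.factorial_zero, Nat.cast_one, zero_add, pow_one]
  | succ l ih =>
    rw [TGa_rec ha, ih, mul_zero, neg_zero, Real.exp_zero, one_mul, zero_pow (Nat.succ_ne_zero l), zero_div, add_zero,
      Nat.factorial_succ, pow_succ a (l + 1)]
    push_cast
    field_simp

theorem Tl_tendsto {a : ℝ} (ha : 0 < a) (l : ℕ) :
    Filter.Tendsto (Tl a l) Filter.atTop (nhds 0) := by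
  have ha' : a ≠ 0 := ha.ne'
  have hs : Filter.Tendsto (fun s : ℝ => a * s) Filter.atTop Filter.atTop :=
    Filter.tendsto_id.const_mul_atTop ha
  have hp : ∀ k : ℕ, Filter.Tendsto (fun s : ℝ => Real.exp (-(a * s)) * (s ^ k / a)) Filter.atTop (nhds 0) := by
    intro k
    have h1 := ((Real.tendsto_pow_mul_exp_neg_atTop_nhds_zero k).comp hs).const_mul (1 / (a ^ k * a))
    rw [mul_zero] at h1
    refine h1.congr fun s => ?_
    have e1 : ((fun x : ℝ => x ^ k * Real.exp (-x)) ∘ fun s : ℝ => a * s) s = (a * s) ^ k * Real.exp (-(a * s)) := rfl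
    rw [e1, mul_pow]
    field_simp
  induction l with
  | zero =>
    have h1 := hp 0
    refine h1.congr fun s => ?_
    rw [TGa_zero, pow_zero]
  | succ l ih =>
    have h1 := (ih.const_mul (((l : ℝ) + 1) / a)).add (hp (l + 1))
    rw [mul_zero, add_zero] at h1
    exact h1.congr fun s => (TGa_rec ha l s).symm

end Pool.Agent.Lib.MP_eeed5c_coU
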