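import Pool.Agent.Lib.MP_eeed5c_co_U.TFa
import Pool.Agent.Lib.MP_eeed5c_co_U.TEb
import Pool.Agent.Lib.MP_eeed5c_co_U.TGa

/-!
# The lower bound for the deficit of the number of perfect matchings

PROOF. Let `n = q r`, `a = (q+1) r`, `K = KP r`, `M = MP n G`, `D = DP r q G`.

* `F2`: `M.eval s ≤ K.eval s ^ q` for `s > 0`: `KP_eval`, `MP_eval`, and
  `(mp G).eval y ≤ (Lp r).eval y ^ q` for `y = s⁻¹ > 0`, which follows from `gap` (in `_T/GA.lean`) with
  `κ = 0` and `x0 = min y 1` (`Far G 0` holds trivially: `loc` and `tri` are `≥ 0`: sums of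
  squares and a cardinality).
* `c_lower`: `g s = 1 - M.eval s / K.eval s ^ q` on `[0, ∞)` has the derivative
  `- (M' K - q M K') / K^(q+1) = - D.eval s / (r K^(q+1))`. With `hD`,
  `D.eval s ≥ ∑_{l < J} D.coeff l s^l` for `s ≥ 0`, and `K.eval s ^ (q+1) ≤ r!^(q+1) exp (a s)`
  (`KP_le_exp`), so `g' ≤ - ∑_{l < J} D.coeff l s^l exp (-a s) / (r r!^(q+1)) = H'`, where
  `H s = ∑_{l < J} D.coeff l / (r r!^(q+1)) * Tl a l s`. Thus `g - H` is antitone on `[0, ∞)`
  (`antitoneOn_of_deriv_nonpos`), `g 0 - H 0 ≥ g s - H s ≥ - H s → 0` (`F2`; `ge_of_tendsto`),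
  which is the claim: `g 0 = 1 - Mh n G 0 / r!^q` (`M.eval 0 = M.coeff 0 = Mh n G 0`,
  `K.eval 0 = Kh r 0 = r!`) and `H 0 = ∑_{l < J} D.coeff l l! / (r r!^(q+1) a^(l+1))`.
-/

set_option autoImplicit false

namespace Pool.Agent.Lib.MP_eeed5c_coU

open Finset Pool.Agent.Lib.MP_eeed5c_co Pool.Agent.Lib.MP_eeed5c_coT

theorem TGb_far {V : Type*} [Fintype V] (G : SimpleGraph V) : Far G 0 := by
  classical
  intro v u _
  have h1 : 0 ≤ loc G v u := by
    unfold loc
    exact Finset.sum_nonneg fun p _ => sq_nonneg _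
  have h2 : 0 ≤ tri G v u := by
    unfold tri
    positivity
  linarith

theorem F2 {V : Type*} [Fintype V] {G : SimpleGraph V} {q r : ℕ} (hr : 1 ≤ r)
    (hV : Fintype.card V = 2 * (q * r)) (hreg : Reg G r) {s : ℝ} (hs : 0 < s) :
    (MP (q * r) G).eval s ≤ (KP r).eval s ^ q := by
  rw [KP_eval r hs.ne', MP_eval hV hs.ne']
  have hy : 0 < s⁻¹ := inv_pos.2 hs
  have h := gap hr hV hreg (κ := 0) (le_refl 0) (TGb_far G) (x0 := min s⁻¹ 1) (x := s⁻¹)
    (lt_min hy one_pos) (min_le_right _ _) (min_le_left _ _)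
  have e : -((0 : ℝ) * q * r ^ 2 * (min s⁻¹ 1) ^ 4 / (8 * (1 + 2 * (min s⁻¹ 1) * r) ^ 8)) = 0 := by
    ring
  rw [e, Real.exp_zero, one_mul] at h
  calc s ^ (q * r) * (mp G).eval s⁻¹ ≤ s ^ (q * r) * (Lp r).eval s⁻¹ ^ q :=
        mul_le_mul_of_nonneg_left h (by positivity)
    _ = (s ^ r * (Lp r).eval s⁻¹) ^ q := by
        rw [mul_pow, ← pow_mul, mul_comm r q]

theorem TGb_eval_ge {D : Polynomial ℝ} (hD : ∀ l, 0 ≤ D.coeff l) (J : ℕ) {s : ℝ} (hs : 0 ≤ s) :
    ∑ l ∈ range J, D.coeff l * s ^ l ≤ D.eval s := by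
  have hN : D.natDegree < max (D.natDegree + 1) J := lt_of_lt_of_le (Nat.lt_succ_self _) (le_max_left _ _)
  rw [Polynomial.eval_eq_sum_range' hN]
  exact Finset.sum_le_sum_of_subset_of_nonneg (Finset.range_subset_range.2 (le_max_right _ _))
    fun l _ _ => mul_nonneg (hD l) (pow_nonneg hs l)

theorem TGb_deriv {V : Type*} [Fintype V] (G : SimpleGraph V) {q r : ℕ} (hr : 1 ≤ r)
    {s : ℝ} (hs : 0 ≤ s) :
    HasDerivAt (fun s => (MP (q * r) G).eval s / (KP r).eval s ^ q)
      ((DP r q G).eval s / (r * (KP r).eval s ^ (q + 1))) s := by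
  have hr0 : (r : ℝ) ≠ 0 := by
    have : (0 : ℝ) < (r : ℝ) := by exact_mod_cast hr
    exact this.ne'
  have hf0 : (0 : ℝ) < (r.factorial : ℝ) := by exact_mod_cast Nat.factorial_pos r
  have hK : (KP r).eval s ≠ 0 := (lt_of_lt_of_le hf0 (KP_ge r hs)).ne'
  have h1 := (MP (q * r) G).hasDerivAt s
  have h2 := ((KP r).hasDerivAt s).pow q
  have h3 := h1.div h2 (pow_ne_zero q hK)
  have e : ((MP (q * r) G).derivative.eval s * (KP r).eval s ^ q - (MP (q * r) G).eval s *
      ((q : ℝ) * (KP r).eval s ^ (q - 1) * (KP r).derivative.eval s)) / ((KP r).eval s ^ q) ^ 2 =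
      (DP r q G).eval s / (r * (KP r).eval s ^ (q + 1)) := by
    unfold DP
    rw [Polynomial.eval_mul, Polynomial.eval_C, Polynomial.eval_sub, Polynomial.eval_mul,
      Polynomial.eval_mul, Polynomial.eval_mul, Polynomial.eval_C]
    rcases q with _ | q
    · simp only [Nat.cast_zero, zero_mul, mul_zero, sub_zero, pow_zero, mul_one, one_pow, zero_add,
        pow_one, div_one]
      rw [mul_div_mul_left _ _ hr0, mul_div_cancel_left₀ _ hK]
    · rw [Nat.add_sub_cancel, mul_div_mul_left _ _ hr0, div_eq_div_iff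
        (pow_ne_zero _ (pow_ne_zero _ hK)) (pow_ne_zero _ hK)]
      generalize (KP r).eval s = K
      generalize (KP r).derivative.eval s = K'
      generalize (MP ((q + 1) * r) G).eval s = M
      generalize (MP ((q + 1) * r) G).derivative.eval s = M'
      generalize ((q + 1 : ℕ) : ℝ) = Q
      ring
  rw [← e]
  exact h3

theorem c_lower {V : Type*} [Fintype V] {G : SimpleGraph V} {q r : ℕ} (hr : 1 ≤ r)
    (hV : Fintype.card V = 2 * (q * r)) (hreg : Reg G r)
    (hD : ∀ l, 0 ≤ (DP r q G).coeff l) (J : ℕ) :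
    ∑ l ∈ range J, (DP r q G).coeff l * l.factorial /
        (r * (r.factorial : ℝ) ^ (q + 1) * (((q : ℝ) + 1) * r) ^ (l + 1)) ≤
      1 - Mh (q * r) G 0 / (r.factorial : ℝ) ^ q := by
  have hr0 : (0 : ℝ) < (r : ℝ) := by exact_mod_cast hr
  have hf0 : (0 : ℝ) < (r.factorial : ℝ) := by exact_mod_cast Nat.factorial_pos r
  have hK0 : ∀ s : ℝ, 0 ≤ s → 0 < (KP r).eval s := fun s hs => lt_of_lt_of_le hf0 (KP_ge r hs)
  set a : ℝ := ((q : ℝ) + 1) * r with ha
  have ha0 : 0 < a := by rw [ha]; positivity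
  set C0 : ℝ := r * (r.factorial : ℝ) ^ (q + 1) with hC0
  have hC : 0 < C0 := by rw [hC0]; positivity
  let H : ℝ → ℝ := fun s => ∑ l ∈ range J, (DP r q G).coeff l / C0 * Tl a l s
  let g : ℝ → ℝ := fun s => 1 - (MP (q * r) G).eval s / (KP r).eval s ^ q
  have hHd : ∀ s, HasDerivAt H (∑ l ∈ range J, (DP r q G).coeff l / C0 *
      (-(s ^ l * Real.exp (-(a * s))))) s := by
    intro s
    exact HasDerivAt.fun_sum fun l _ => (Tl_hasDeriv ha0 l s).const_mul _
  have hgd : ∀ s, 0 ≤ s → HasDerivAt g (-((DP r q G).eval s / (r * (KP r).eval s ^ (q + 1)))) s := by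
    intro s hs
    have h := (TGb_deriv G (q := q) hr hs).const_sub 1
    exact h
  have hφ : ∀ s, 0 ≤ s → HasDerivAt (fun s => g s - H s)
      (-((DP r q G).eval s / (r * (KP r).eval s ^ (q + 1))) - ∑ l ∈ range J, (DP r q G).coeff l / C0 *
      (-(s ^ l * Real.exp (-(a * s))))) s := fun s hs => (hgd s hs).sub (hHd s)
  have hneg : ∀ s, 0 ≤ s → -((DP r q G).eval s / (r * (KP r).eval s ^ (q + 1))) -
      ∑ l ∈ range J, (DP r q G).coeff l / C0 * (-(s ^ l * Real.exp (-(a * s)))) ≤ 0 := by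
    intro s hs
    have e1 : ∑ l ∈ range J, (DP r q G).coeff l / C0 * (-(s ^ l * Real.exp (-(a * s)))) =
        -((∑ l ∈ range J, (DP r q G).coeff l * s ^ l) / (C0 * Real.exp (a * s))) := by
      rw [Finset.sum_div, ← Finset.sum_neg_distrib]
      refine Finset.sum_congr rfl fun l _ => ?_
      rw [Real.exp_neg]
      have := Real.exp_pos (a * s)
      field_simp
    rw [e1]
    have h1 := TGb_eval_ge hD J hs
    have hS0 : 0 ≤ ∑ l ∈ range J, (DP r q G).coeff l * s ^ l :=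
      Finset.sum_nonneg fun l _ => mul_nonneg (hD l) (pow_nonneg hs l)
    have h2 : (r : ℝ) * (KP r).eval s ^ (q + 1) ≤ C0 * Real.exp (a * s) := by
      have h3 : (KP r).eval s ^ (q + 1) ≤ (r.factorial * Real.exp (r * s)) ^ (q + 1) :=
        pow_le_pow_left₀ (hK0 s hs).le (KP_le_exp r hs) _
      have e2 : (r.factorial * Real.exp (r * s)) ^ (q + 1) =
          (r.factorial : ℝ) ^ (q + 1) * Real.exp (a * s) := by
        rw [mul_pow, ← Real.exp_nat_mul]
        congr 2
        rw [ha]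
        push_cast
        ring
      rw [e2] at h3
      calc (r : ℝ) * (KP r).eval s ^ (q + 1) ≤ r * ((r.factorial : ℝ) ^ (q + 1) * Real.exp (a * s)) :=
            mul_le_mul_of_nonneg_left h3 hr0.le
        _ = _ := by rw [hC0]; ring
    have h4 : 0 < (r : ℝ) * (KP r).eval s ^ (q + 1) := mul_pos hr0 (pow_pos (hK0 s hs) _)
    have h5 : (∑ l ∈ range J, (DP r q G).coeff l * s ^ l) / (C0 * Real.exp (a * s)) ≤
        (DP r q G).eval s / (r * (KP r).eval s ^ (q + 1)) :=
      div_le_div₀ (hS0.trans h1) h1 h4 h2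
    linarith
  have hanti : AntitoneOn (fun s => g s - H s) (Set.Ici 0) := by
    refine antitoneOn_of_deriv_nonpos (convex_Ici 0) ?_ ?_ ?_
    · intro s hs
      exact (hφ s hs).continuousAt.continuousWithinAt
    · intro s hs
      rw [interior_Ici] at hs
      exact (hφ s (le_of_lt hs)).differentiableAt.differentiableWithinAt
    · intro s hs
      rw [interior_Ici] at hs
      rw [(hφ s (le_of_lt hs)).deriv]
      exact hneg s (le_of_lt hs)
  have hH0 : Filter.Tendsto H Filter.atTop (nhds 0) := by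
    have h : Filter.Tendsto H Filter.atTop (nhds (∑ l ∈ range J, (DP r q G).coeff l / C0 * 0)) :=
      tendsto_finset_sum _ fun l _ => (Tl_tendsto ha0 l).const_mul _
    simpa using h
  have hfin : 0 ≤ g 0 - H 0 := by
    have hlim : Filter.Tendsto (fun s => -H s) Filter.atTop (nhds 0) := by
      have := hH0.neg
      simpa using this
    refine le_of_tendsto hlim ?_
    filter_upwards [Filter.eventually_gt_atTop (0 : ℝ)] with s hs
    have h1 := hanti (Set.mem_Ici.2 (le_refl (0 : ℝ))) (Set.mem_Ici.2 hs.le) hs.le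
    have h2 := F2 hr hV hreg hs
    have h3 : 0 ≤ g s := by
      have h4 : (MP (q * r) G).eval s / (KP r).eval s ^ q ≤ 1 :=
        (div_le_one (pow_pos (hK0 s hs.le) q)).2 h2
      change 0 ≤ 1 - (MP (q * r) G).eval s / (KP r).eval s ^ q
      linarith
    have h5 : g s - H s ≤ g 0 - H 0 := h1
    linarith
  have e1 : g 0 = 1 - Mh (q * r) G 0 / (r.factorial : ℝ) ^ q := by
    change 1 - (MP (q * r) G).eval 0 / (KP r).eval 0 ^ q = _
    rw [← Polynomial.coeff_zero_eq_eval_zero, ← Polynomial.coeff_zero_eq_eval_zero, MP_coeff hV,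
      KP_coeff, Kh_zero]
  have e2 : H 0 = ∑ l ∈ range J, (DP r q G).coeff l * l.factorial / (C0 * a ^ (l + 1)) := by
    change ∑ l ∈ range J, (DP r q G).coeff l / C0 * Tl a l 0 = _
    refine Finset.sum_congr rfl fun l _ => ?_
    rw [Tl_zero ha0, div_mul_div_comm]
  rw [← e1, ← e2]
  linarith

end Pool.Agent.Lib.MP_eeed5c_coU
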