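import Pool.Agent.Lib.MP_eeed5c_co_U.Defs

/-!
# The reversed polynomials

`KP r`, `MP n G`, `DP r q G` are the reversed polynomials of `Lp r`, `mp G` and `Dp r q G`.

PROOFS. `Lp_coeff`, `mp_coeff`, `mp_natDegree_le` and similar lemmas are in the library
(`_T/Base.lean` etc.; grep). `coeff_reflect`: `(reflect N f).coeff i = f.coeff (revAt N i)` and
`revAt N i = N - i` for `i ≤ N`, `revAt N i = i` for `i > N` (`revAt_le`, `revAt_eq_self_of_lt`).

* `KP_coeff`: for `h > r` the coefficient of `Lp r` is zero. `MP_coeff`: the same; for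
  `i > n` there are no matchings with `i` edges (`2 i ≤ card V = 2 n`: `card_mats_eq_zero`).
* `KP_pow_coeff`: `reflect_mul` and induction give `(reflect r (Lp r)) ^ q = reflect (q r) (Lp r ^ q)`
  (`natDegree_Lp_le`, `natDegree_pow_le`), then `coeff_reflect` (the degree of `Lp r ^ q` is `≤ q r`,
  so the coefficient for `t > q r` is zero).
* `KP_eval`, `MP_eval`: `reflect N f = ∑ ...` or by `Polynomial.eval₂_reflect_mul_pow`
  (`eval₂ i (⅟x) (reflect N f) * x ^ N = eval₂ i x f`, take `x = s⁻¹`), or directly: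
  `eval s (reflect N f) = ∑ i ∈ range (N+1), f.coeff (N - i) s ^ i = s ^ N ∑ i, f.coeff i (s⁻¹) ^ i`
  (`eval_eq_sum_range'`, `sum_range_reflect`).
-/

set_option autoImplicit false

namespace Pool.Agent.Lib.MP_eeed5c_coU

open Finset Pool.Agent.Lib.MP_eeed5c_co Pool.Agent.Lib.MP_eeed5c_coT

/-- The reversed polynomial of `Lp r`. -/
noncomputable def KP (r : ℕ) : Polynomial ℝ := (Lp r).reflect r

section

variable {V : Type*} [Fintype V]

/-- The reversed polynomial of `mp G`. -/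
noncomputable def MP (n : ℕ) (G : SimpleGraph V) : Polynomial ℝ := (mp G).reflect n

/-- The reversed polynomial of `Dp r q G`. -/
noncomputable def DP (r q : ℕ) (G : SimpleGraph V) : Polynomial ℝ :=
  Polynomial.C (r : ℝ) * (KP r * (MP (q * r) G).derivative -
    Polynomial.C (q : ℝ) * (KP r).derivative * MP (q * r) G)

theorem KP_coeff (r h : ℕ) : (KP r).coeff h = Kh r h := by
  unfold KP Kh
  rw [Polynomial.coeff_reflect, Lp_coeff]
  by_cases hh : h ≤ r
  · rw [if_pos hh, Polynomial.revAt_le hh]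
  · rw [if_neg hh, Polynomial.revAt_eq_self_of_lt (by omega), ell_eq_zero (by omega)]

theorem MP_coeff {n : ℕ} {G : SimpleGraph V} (hV : Fintype.card V = 2 * n) (t : ℕ) :
    (MP n G).coeff t = Mh n G t := by
  unfold MP Mh
  rw [Polynomial.coeff_reflect, mp_coeff]
  by_cases hh : t ≤ n
  · rw [if_pos hh, Polynomial.revAt_le hh]
  · rw [if_neg hh, Polynomial.revAt_eq_self_of_lt (by omega), card_mats_eq_zero (by omega)]
    simp

theorem TEa_pow (r q : ℕ) : (KP r) ^ q = ((Lp r) ^ q).reflect (q * r) := by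
  induction q with
  | zero =>
    ext i
    rw [Polynomial.coeff_reflect, pow_zero, pow_zero, Polynomial.coeff_one, Polynomial.coeff_one,
      Nat.zero_mul]
    rcases Nat.eq_zero_or_pos i with rfl | hi
    · rw [Polynomial.revAt_le (le_refl 0)]
    · rw [Polynomial.revAt_eq_self_of_lt hi]
  | succ q ih =>
    have e : (q + 1) * r = q * r + r := by ring
    rw [pow_succ, pow_succ, ih, e,
      Polynomial.reflect_mul _ _ (Lp_pow_natDegree_le r q) (Lp_natDegree_le r)]
    rfl

theorem KP_pow_coeff (r q t : ℕ) : ((KP r) ^ q).coeff t = Ph r q t := by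
  rw [TEa_pow, Polynomial.coeff_reflect]
  unfold Ph
  by_cases hh : t ≤ q * r
  · rw [if_pos hh, Polynomial.revAt_le hh]
    rfl
  · rw [if_neg hh, Polynomial.revAt_eq_self_of_lt (by omega)]
    exact T_eq_zero (by omega)

theorem TEa_eval (f : Polynomial ℝ) (N : ℕ) (hf : f.natDegree ≤ N) {s : ℝ} (hs : s ≠ 0) :
    (f.reflect N).eval s = s ^ N * f.eval s⁻¹ := by
  letI : Invertible (s⁻¹) := ⟨s, mul_inv_cancel₀ hs, inv_mul_cancel₀ hs⟩
  have h := Polynomial.eval₂_reflect_mul_pow (RingHom.id ℝ) (s⁻¹) N f hf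
  have e : (⅟ (s⁻¹) : ℝ) = s := rfl
  rw [e] at h
  have h2 : (f.reflect N).eval s * (s⁻¹) ^ N = f.eval s⁻¹ := h
  rw [← h2, inv_pow]
  field_simp

theorem KP_eval (r : ℕ) {s : ℝ} (hs : s ≠ 0) : (KP r).eval s = s ^ r * (Lp r).eval s⁻¹ :=
  TEa_eval _ _ (Lp_natDegree_le r) hs

theorem MP_eval {n : ℕ} {G : SimpleGraph V} (hV : Fintype.card V = 2 * n) {s : ℝ} (hs : s ≠ 0) :
    (MP n G).eval s = s ^ n * (mp G).eval s⁻¹ :=
  TEa_eval _ _ (mp_natDegree_le hV) hs

end

end Pool.Agent.Lib.MP_eeed5c_coU
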