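import Pool.Agent.Lib.MP_eeed5c_co_U.TEa

/-!
# Bounds for the coefficients

PROOFS. `ell r j = C(r,j)^2 j!`. For `h ≤ r`: `Kh r h = C(r,h)^2 (r-h)! = C(r,h) r! / h!`
(`Nat.choose_symm`, `Nat.choose_mul_factorial_mul_factorial`), in particular `Kh r 0 = r!`,
`Kh r 1 = r * r!` (`r ≥ 1`).

* `Kh_le`: `C(r,h) ≤ r^h` (`Nat.choose_le_pow`), so `Kh r h ≤ r! r^h / h!`.
* `KP_le_exp`: `KP r` has degree `≤ r`; `(KP r).eval s = ∑ h ∈ range (r+1), Kh r h s^h ≤
  r! ∑_h (r s)^h / h! ≤ r! exp (r s)` (`Real.sum_le_exp_of_nonneg`). `KP_ge`: the term `h = 0`.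
* `Ph_zero`: coefficient `0` of a power (`KP_pow_coeff`, `Polynomial.coeff_zero_eq_eval_zero`).
  `Ph_nonneg`: `T r q m ≥ 0` (library).
* `Ph_lower`: coefficientwise `KP r ≥ r! (1 + r X) ≥ 0` (`r ≥ 1`; coefficients `0` and `1`, the others are `≥ 0`),
  hence `(KP r)^q ≥ (r!)^q (1 + r X)^q` coefficientwise (`CLe` is compatible with products of
  polynomials with nonnegative coefficients; library: `CLe.mul` or similar, `CLe.pow`), and
  `(1 + r X)^q` has the coefficients `C(q,t) r^t` (`Polynomial.coeff_one_add_X_pow`, or `add_pow`).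
  Alternatively induction on `q`: `Ph (q+1) t = ∑ Kh h * Ph q (t-h) ≥ r! Ph q t + r r! Ph q (t-1)`.
-/

set_option autoImplicit false

namespace Pool.Agent.Lib.MP_eeed5c_coU

open Finset Pool.Agent.Lib.MP_eeed5c_co Pool.Agent.Lib.MP_eeed5c_coT

theorem Kh_nonneg (r h : ℕ) : 0 ≤ Kh r h := by
  unfold Kh
  split_ifs
  · exact ell_nonneg _ _
  · exact le_refl _

theorem Kh_zero (r : ℕ) : Kh r 0 = (r.factorial : ℝ) := by
  unfold Kh
  rw [if_pos (Nat.zero_le r), Nat.sub_zero, ell_self]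

private theorem TFa_Kh {r h : ℕ} (hh : h ≤ r) :
    Kh r h = (r.choose h : ℝ) * (r.factorial : ℝ) / (h.factorial : ℝ) := by
  unfold Kh ell
  rw [if_pos hh, Nat.choose_symm hh]
  have h1 := Nat.choose_mul_factorial_mul_factorial hh
  have h2 : ((r.choose h * h.factorial * (r - h).factorial : ℕ) : ℝ) = (r.factorial : ℝ) := by
    rw [h1]
  push_cast at h2
  have h3 : (h.factorial : ℝ) ≠ 0 := Nat.cast_ne_zero.2 (Nat.factorial_ne_zero h)
  rw [← h2, eq_div_iff h3]
  ring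

theorem Kh_le (r h : ℕ) : Kh r h ≤ r.factorial * (r : ℝ) ^ h / h.factorial := by
  by_cases hh : h ≤ r
  · rw [TFa_Kh hh]
    have h1 : (r.choose h : ℝ) ≤ (r : ℝ) ^ h := by
      have h2 := Nat.choose_le_pow r h
      calc (r.choose h : ℝ) ≤ ((r ^ h : ℕ) : ℝ) := Nat.cast_le.2 h2
        _ = _ := by push_cast; rfl
    have h3 : (0 : ℝ) ≤ (r.factorial : ℝ) := Nat.cast_nonneg _
    have h4 : (0 : ℝ) ≤ (h.factorial : ℝ) := Nat.cast_nonneg _
    refine div_le_div_of_nonneg_right ?_ h4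
    rw [mul_comm]
    exact mul_le_mul_of_nonneg_left h1 h3
  · unfold Kh
    rw [if_neg hh]
    positivity

private theorem TFa_eval (r : ℕ) (s : ℝ) : (KP r).eval s = ∑ h ∈ range (r + 1), Kh r h * s ^ h := by
  have h1 : (KP r).natDegree < r + 1 := by
    refine Nat.lt_succ_of_le (Polynomial.natDegree_le_iff_coeff_eq_zero.2 fun N hN => ?_)
    rw [KP_coeff]
    unfold Kh
    rw [if_neg (by omega)]
  rw [Polynomial.eval_eq_sum_range' h1]
  exact Finset.sum_congr rfl fun h _ => by rw [KP_coeff]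

theorem KP_le_exp (r : ℕ) {s : ℝ} (hs : 0 ≤ s) :
    (KP r).eval s ≤ r.factorial * Real.exp (r * s) := by
  rw [TFa_eval]
  have h1 : ∑ h ∈ range (r + 1), Kh r h * s ^ h ≤
      ∑ h ∈ range (r + 1), (r.factorial : ℝ) * (((r : ℝ) * s) ^ h / (h.factorial : ℝ)) := by
    refine Finset.sum_le_sum fun h _ => ?_
    refine (mul_le_mul_of_nonneg_right (Kh_le r h) (pow_nonneg hs h)).trans (le_of_eq ?_)
    rw [mul_pow]
    ring
  refine h1.trans ?_
  rw [← Finset.mul_sum]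
  refine mul_le_mul_of_nonneg_left ?_ (Nat.cast_nonneg _)
  exact Real.sum_le_exp_of_nonneg (by positivity) (r + 1)

theorem KP_ge (r : ℕ) {s : ℝ} (hs : 0 ≤ s) : (r.factorial : ℝ) ≤ (KP r).eval s := by
  rw [TFa_eval]
  have h1 := Finset.single_le_sum (f := fun h => Kh r h * s ^ h) (s := range (r + 1))
    (fun h _ => mul_nonneg (Kh_nonneg r h) (pow_nonneg hs h)) (Finset.mem_range.2 (Nat.succ_pos r))
  have h2 : Kh r 0 * s ^ 0 = (r.factorial : ℝ) := by
    rw [Kh_zero, pow_zero, mul_one]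
  exact h2.symm.le.trans h1

theorem Ph_zero (r q : ℕ) : Ph r q 0 = (r.factorial : ℝ) ^ q := by
  rw [← KP_pow_coeff, Polynomial.coeff_zero_eq_eval_zero, Polynomial.eval_pow,
    ← Polynomial.coeff_zero_eq_eval_zero, KP_coeff, Kh_zero]

theorem Ph_nonneg (r q t : ℕ) : 0 ≤ Ph r q t := by
  unfold Ph
  split_ifs
  · exact T_nonneg _ _ _
  · exact le_refl _

/-- the linear part of `KP r` -/
private noncomputable def TFa_B (r : ℕ) : Polynomial ℝ :=
  Polynomial.C (r.factorial : ℝ) * (1 + Polynomial.C (r : ℝ) * Polynomial.X)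

private theorem TFa_B_le {r : ℕ} (hr : 1 ≤ r) : CLe (TFa_B r) (KP r) := by
  intro m
  rw [KP_coeff]
  unfold TFa_B
  rw [Polynomial.coeff_C_mul, Polynomial.coeff_add, Polynomial.coeff_C_mul, Polynomial.coeff_one,
    Polynomial.coeff_X]
  rcases m with _ | _ | m
  · rw [Kh_zero]
    simp
  · rw [TFa_Kh hr]
    simp
    exact le_of_eq (mul_comm _ _)
  · have h1 : ¬ (1 = m + 1 + 1) := by omega
    rw [if_neg (by omega), if_neg h1, mul_zero, add_zero, mul_zero]
    exact Kh_nonneg _ _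

private theorem TFa_B_NN (r : ℕ) : NN (TFa_B r) := by
  intro m
  unfold TFa_B
  rw [Polynomial.coeff_C_mul, Polynomial.coeff_add, Polynomial.coeff_C_mul, Polynomial.coeff_one,
    Polynomial.coeff_X]
  split_ifs <;> positivity

private theorem TFa_KP_NN (r : ℕ) : NN (KP r) := fun m => by
  rw [KP_coeff]
  exact Kh_nonneg _ _

private theorem TFa_pow {r : ℕ} (hr : 1 ≤ r) (q : ℕ) : CLe (TFa_B r ^ q) (KP r ^ q) := by
  induction q with
  | zero =>
    rw [pow_zero, pow_zero]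
    exact CLe_refl _
  | succ q ih =>
    rw [pow_succ, pow_succ]
    exact CLe_trans (CLe_mul_right ih (TFa_B_NN r)) (CLe_mul_left (TFa_B_le hr) (NN_pow (TFa_KP_NN r) q))

theorem Ph_lower {r : ℕ} (hr : 1 ≤ r) (q t : ℕ) :
    (r.factorial : ℝ) ^ q * (q.choose t : ℝ) * (r : ℝ) ^ t ≤ Ph r q t := by
  have h1 := TFa_pow hr q t
  rw [KP_pow_coeff] at h1
  refine (le_of_eq ?_).trans h1
  unfold TFa_B
  have h2 : (1 + Polynomial.C (r : ℝ) * Polynomial.X) ^ q =
      ((1 + Polynomial.X : Polynomial ℝ) ^ q).comp (Polynomial.C (r : ℝ) * Polynomial.X) := by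
    rw [Polynomial.pow_comp, Polynomial.add_comp, Polynomial.one_comp, Polynomial.X_comp]
  rw [mul_pow, ← Polynomial.C_pow, Polynomial.coeff_C_mul, h2, Polynomial.comp_C_mul_X_coeff,
    Polynomial.coeff_one_add_X_pow, mul_assoc]

end Pool.Agent.Lib.MP_eeed5c_coU
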