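import Pool.Agent.Lib.MP_eeed5c_co_T.Fin3
import Mathlib

/-!
# Definitions

`Dp r q G` is the numerator of the logarithmic derivative of the quotient of `(Lp r) ^ q` and `mp G`,
times `r`. `Kh`, `Mh` are the polynomials `Lp`, `mp G` with reversed coefficients.
-/

set_option autoImplicit false

namespace Pool.Agent.Lib.MP_eeed5c_coU

open Finset Pool.Agent.Lib.MP_eeed5c_co Pool.Agent.Lib.MP_eeed5c_coT

section

variable {V : Type*} [Fintype V]

/-- `q r L' M - r L M'`. -/
noncomputable def Dp (r q : ℕ) (G : SimpleGraph V) : Polynomial ℝ :=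
  Polynomial.C ((q : ℝ) * r) * (Lp r).derivative * mp G -
    Polynomial.C (r : ℝ) * Lp r * (mp G).derivative

/-- The coefficients of `Dp`, from the top. -/
noncomputable def Dh (r q : ℕ) (G : SimpleGraph V) (l : ℕ) : ℝ :=
  (Dp r q G).coeff (q * r + r - 2 - l)

/-- The coefficients of `Lp r`, from the top. -/
noncomputable def Kh (r h : ℕ) : ℝ := if h ≤ r then ell r (r - h) else 0

/-- The coefficients of `mp G`, from the top. -/
noncomputable def Mh (n : ℕ) (G : SimpleGraph V) (t : ℕ) : ℝ :=
  if t ≤ n then ((mats G (n - t)).card : ℝ) else 0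

/-- The coefficients of `(Lp r) ^ q`, from the top. -/
noncomputable def Ph (r q t : ℕ) : ℝ := if t ≤ q * r then T r q (q * r - t) else 0

end

end Pool.Agent.Lib.MP_eeed5c_coU
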