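import Pool.Agent.Lib.MP_eeed5c_co_U.TEb

/-!
# Recursions for the coefficients

PROOFS.
* `Ph_rec`: the coefficient of `X^l` in `KP * (KP^q)' - q KP' * KP^q = 0`
  (`Polynomial.derivative_pow`), written as `∑_{h + t = l+1} (t - q h) K_h P_t = 0`, `t = l+1-h`:
  `t - q h = (l + 1) - (q+1) h`. (`W_coeff` of `TEb.lean`, and `KP_coeff`, `KP_pow_coeff`.) `Finset.Nat.sum_antidiagonal_eq_sum_range_succ_mk`.
* `Eh_rec`: `DP_coeff` (`TEb.lean`) and `W_coeff` for `MP` (`MP_coeff`), subtracted from `r * Ph_rec`.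
-/

set_option autoImplicit false

namespace Pool.Agent.Lib.MP_eeed5c_coU

open Finset Pool.Agent.Lib.MP_eeed5c_co Pool.Agent.Lib.MP_eeed5c_coT

/-- The sum over the antidiagonal. -/
theorem TFb_sum (q l : ℕ) (f g : ℕ → ℝ) :
    ∑ p ∈ antidiagonal (l + 1), ((p.2 : ℝ) - q * p.1) * f p.1 * g p.2 =
      -∑ h ∈ range (l + 2), f h * (((q : ℝ) + 1) * h - ((l : ℝ) + 1)) * g (l + 1 - h) := by
  rw [Finset.Nat.sum_antidiagonal_eq_sum_range_succ_mk, ← Finset.sum_neg_distrib]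
  refine Finset.sum_congr rfl fun h hh => ?_
  rw [Finset.mem_range] at hh
  have h1 : h ≤ l + 1 := by omega
  have h2 : ((l + 1 - h : ℕ) : ℝ) = (l : ℝ) + 1 - h := by
    rw [Nat.cast_sub h1]
    push_cast
    rfl
  have h3 : (((h, l + 1 - h) : ℕ × ℕ).2 : ℝ) = (l : ℝ) + 1 - h := h2
  rw [h3]
  ring

theorem Ph_rec (r q l : ℕ) : ∑ h ∈ range (l + 2),
    Kh r h * (((q : ℝ) + 1) * h - ((l : ℝ) + 1)) * Ph r q (l + 1 - h) = 0 := by
  have h1 := W_coeff (q : ℝ) (KP r) (KP r ^ q) l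
  have h2 : KP r * (KP r ^ q).derivative - Polynomial.C (q : ℝ) * (KP r).derivative * KP r ^ q = 0 := by
    cases q with
    | zero => simp
    | succ q =>
      rw [Polynomial.derivative_pow, Nat.add_sub_cancel, pow_succ]
      ring
  rw [h2, Polynomial.coeff_zero] at h1
  have h3 : ∑ p ∈ antidiagonal (l + 1), ((p.2 : ℝ) - q * p.1) * (KP r).coeff p.1 * (KP r ^ q).coeff p.2 =
      ∑ p ∈ antidiagonal (l + 1), ((p.2 : ℝ) - q * p.1) * Kh r p.1 * Ph r q p.2 := by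
    refine Finset.sum_congr rfl fun p _ => ?_
    rw [KP_coeff, KP_pow_coeff]
  rw [h3, TFb_sum] at h1
  linarith

theorem Eh_rec {V : Type*} [Fintype V] {r q : ℕ} {G : SimpleGraph V}
    (hV : Fintype.card V = 2 * (q * r)) {l : ℕ} (hl : l + 2 ≤ q * r + r) :
    (r : ℝ) * ∑ h ∈ range (l + 2), Kh r h * (((q : ℝ) + 1) * h - ((l : ℝ) + 1)) *
      (Ph r q (l + 1 - h) - Mh (q * r) G (l + 1 - h)) = Dh r q G l := by
  have h1 := W_coeff (q : ℝ) (KP r) (MP (q * r) G) l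
  have h3 : ∑ p ∈ antidiagonal (l + 1), ((p.2 : ℝ) - q * p.1) * (KP r).coeff p.1 * (MP (q * r) G).coeff p.2 =
      ∑ p ∈ antidiagonal (l + 1), ((p.2 : ℝ) - q * p.1) * Kh r p.1 * Mh (q * r) G p.2 := by
    refine Finset.sum_congr rfl fun p _ => ?_
    rw [KP_coeff, MP_coeff hV]
  rw [h3, TFb_sum] at h1
  have h4 := DP_coeff (G := G) hV hl
  unfold DP at h4
  rw [Polynomial.coeff_C_mul, h1] at h4
  rw [← h4]
  have h5 : ∑ h ∈ range (l + 2), Kh r h * (((q : ℝ) + 1) * h - ((l : ℝ) + 1)) *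
      (Ph r q (l + 1 - h) - Mh (q * r) G (l + 1 - h)) =
      ∑ h ∈ range (l + 2), Kh r h * (((q : ℝ) + 1) * h - ((l : ℝ) + 1)) * Ph r q (l + 1 - h) -
      ∑ h ∈ range (l + 2), Kh r h * (((q : ℝ) + 1) * h - ((l : ℝ) + 1)) * Mh (q * r) G (l + 1 - h) := by
    rw [← Finset.sum_sub_distrib]
    exact Finset.sum_congr rfl fun h _ => mul_sub _ _ _
  rw [h5, Ph_rec, zero_sub]

end Pool.Agent.Lib.MP_eeed5c_coU
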