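import Pool.Agent.Lib.MP_eeed5c_co_U.TFa
import Pool.Agent.Lib.MP_eeed5c_co_U.TFb

/-!
# The sequence lemmas

PROOFS.
* `Ph_pos`: `Ph_lower` and `q.choose t > 0`.
* `seqE`: strong induction on `t`. `t = 0`: `hc`. Step `t = l + 1 ≤ q`: write `W = c - ∑_{l' < l} v_l'`
  (`v_l = Dl l / (r r! (l+1) Ph (l+1)) ≥ 0`). For `t' ≤ l` the induction hypothesis gives
  `E t' ≥ Ph t' * W` (as `∑_{l' < t'} v ≤ ∑_{l' < l} v` and `Ph t' ≥ 0`). In `h2` and in `Ph_rec` the term
  `h = 0` is `- Kh r 0 (l+1) E (l+1)` (`- Kh r 0 (l+1) Ph (l+1)`), and for `1 ≤ h ≤ l+1` the factors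
  `Kh r h ((q+1) h - (l+1))` are `≥ 0` since `l + 1 ≤ q + 1`. So
  `r! (l+1) E (l+1) = ∑_{h ≥ 1} (...) E (l+1-h) - Dl l / r ≥ W ∑_{h ≥ 1} (...) Ph (l+1-h) - Dl l / r
   = W r! (l+1) Ph (l+1) - Dl l / r`, i.e. `E (l+1) ≥ Ph (l+1) (W - v_l)`.
  (`Finset.sum_range_succ'` splits off `h = 0`.)
* `v_le_u`: by `Ph_lower`, `(l+1)! Ph (l+1) / (r!^q ((q+1) r)^(l+1)) ≥ (l+1)! C(q,l+1) / (q+1)^(l+1)
  = ∏_{i=1}^{l+1} (1 - i/(q+1)) ≥ 1 - ∑_{i=1}^{l+1} i/(q+1) = 1 - y/2`, `y = (l+1)(l+2)/(q+1) ≤ 1`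
  (induction on `l`: `(l+2)! C(q,l+2) = (q - l - 1) (l+1)! C(q,l+1)`; statement `desc_ge`), and
  `1 ≤ (1 + y) (1 - y/2)` for `0 ≤ y ≤ 1`. Then
  `d / (r r! (l+1) Ph (l+1)) ≤ (1+y) d l! / (r r!^(q+1) ((q+1) r)^(l+1))` after clearing
  denominators: it is `r!^q ((q+1) r)^(l+1) ≤ (1+y) (l+1)! Ph (l+1)`.
-/

set_option autoImplicit false

namespace Pool.Agent.Lib.MP_eeed5c_coU

open Finset Pool.Agent.Lib.MP_eeed5c_co Pool.Agent.Lib.MP_eeed5c_coT

theorem Ph_pos {r q t : ℕ} (hr : 1 ≤ r) (ht : t ≤ q) : 0 < Ph r q t := by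
  refine lt_of_lt_of_le ?_ (Ph_lower hr q t)
  have h1 : (0 : ℝ) < (r.factorial : ℝ) := by exact_mod_cast Nat.factorial_pos r
  have h2 : (0 : ℝ) < (q.choose t : ℝ) := by exact_mod_cast Nat.choose_pos ht
  have h3 : (0 : ℝ) < (r : ℝ) := by exact_mod_cast hr
  positivity

theorem seqE {r q : ℕ} (hr : 1 ≤ r) {E Dl : ℕ → ℝ} {c : ℝ} (hD : ∀ l, 0 ≤ Dl l)
    (h2 : ∀ l, l < q → (r : ℝ) * ∑ h ∈ range (l + 2),
      Kh r h * (((q : ℝ) + 1) * h - ((l : ℝ) + 1)) * E (l + 1 - h) = Dl l)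
    (hc : c * Ph r q 0 ≤ E 0) :
    ∀ t, t ≤ q → Ph r q t * (c - ∑ l ∈ range t,
      Dl l / (r * r.factorial * ((l : ℝ) + 1) * Ph r q (l + 1))) ≤ E t := by
  have hr0 : (0 : ℝ) < (r : ℝ) := by exact_mod_cast hr
  have hf0 : (0 : ℝ) < (r.factorial : ℝ) := by exact_mod_cast Nat.factorial_pos r
  set v : ℕ → ℝ := fun l => Dl l / (r * r.factorial * ((l : ℝ) + 1) * Ph r q (l + 1)) with hv
  have hv0 : ∀ l, 0 ≤ v l := by
    intro l
    have := Ph_nonneg r q (l + 1)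
    have := hD l
    rw [hv]
    positivity
  intro t
  induction t using Nat.strong_induction_on with
  | _ t ih =>
    intro ht
    rcases t with _ | l
    · rw [Finset.sum_range_zero, sub_zero, mul_comm]
      exact hc
    · have hlq : l < q := by omega
      have e2 := h2 l hlq
      have e1 := Ph_rec r q l
      rw [Finset.sum_range_succ'] at e1 e2
      rw [Kh_zero] at e1 e2
      simp only [Nat.cast_zero, mul_zero, zero_sub, Nat.sub_zero] at e1 e2
      set W : ℝ := c - ∑ l' ∈ range l, v l' with hW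
      -- comparison of the two sums
      have hle : W * ∑ h ∈ range (l + 1), Kh r (h + 1) *
          (((q : ℝ) + 1) * ((h + 1 : ℕ) : ℝ) - ((l : ℝ) + 1)) * Ph r q (l + 1 - (h + 1)) ≤
          ∑ h ∈ range (l + 1), Kh r (h + 1) *
          (((q : ℝ) + 1) * ((h + 1 : ℕ) : ℝ) - ((l : ℝ) + 1)) * E (l + 1 - (h + 1)) := by
        rw [Finset.mul_sum]
        refine Finset.sum_le_sum fun h hh => ?_
        rw [Finset.mem_range] at hh
        have hco : 0 ≤ Kh r (h + 1) * (((q : ℝ) + 1) * ((h + 1 : ℕ) : ℝ) - ((l : ℝ) + 1)) := by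
          refine mul_nonneg (Kh_nonneg _ _) ?_
          have hl1 : ((l : ℝ) + 1) ≤ (q : ℝ) := by exact_mod_cast hlq
          have hh0 : (0 : ℝ) ≤ (h : ℝ) := Nat.cast_nonneg h
          have hq0 : (0 : ℝ) ≤ (q : ℝ) := Nat.cast_nonneg q
          push_cast
          nlinarith [mul_nonneg hq0 hh0]
        have hih := ih (l + 1 - (h + 1)) (by omega) (by omega)
        have hS : ∑ l' ∈ range (l + 1 - (h + 1)), v l' ≤ ∑ l' ∈ range l, v l' :=
          Finset.sum_le_sum_of_subset_of_nonneg (Finset.range_subset_range.2 (by omega))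
            fun i _ _ => hv0 i
        have hP := Ph_nonneg r q (l + 1 - (h + 1))
        have h3 : W * Ph r q (l + 1 - (h + 1)) ≤ E (l + 1 - (h + 1)) := by
          refine le_trans ?_ hih
          rw [mul_comm]
          exact mul_le_mul_of_nonneg_left (by rw [hW]; linarith) hP
        calc W * (Kh r (h + 1) * (((q : ℝ) + 1) * ((h + 1 : ℕ) : ℝ) - ((l : ℝ) + 1)) *
              Ph r q (l + 1 - (h + 1))) = (Kh r (h + 1) *
              (((q : ℝ) + 1) * ((h + 1 : ℕ) : ℝ) - ((l : ℝ) + 1))) *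
              (W * Ph r q (l + 1 - (h + 1))) := by ring
          _ ≤ _ := mul_le_mul_of_nonneg_left h3 hco
      have hPp : 0 < Ph r q (l + 1) := Ph_pos hr ht
      have hl0 : (0 : ℝ) < (l : ℝ) + 1 := by positivity
      rw [Finset.sum_range_succ]
      have hvl : Ph r q (l + 1) * v l = Dl l / (r * r.factorial * ((l : ℝ) + 1)) := by
        rw [hv]
        field_simp
      have hgoal : Ph r q (l + 1) * (c - (∑ l' ∈ range l, v l' + v l)) =
          W * Ph r q (l + 1) - Dl l / (r * r.factorial * ((l : ℝ) + 1)) := by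
        rw [← hvl, hW]
        ring
      rw [hgoal]
      have e1' : ∑ h ∈ range (l + 1), Kh r (h + 1) *
          (((q : ℝ) + 1) * ((h + 1 : ℕ) : ℝ) - ((l : ℝ) + 1)) * Ph r q (l + 1 - (h + 1)) =
          r.factorial * ((l : ℝ) + 1) * Ph r q (l + 1) := by linarith
      rw [e1'] at hle
      have hden : 0 < (r : ℝ) * r.factorial * ((l : ℝ) + 1) := by positivity
      rw [sub_le_iff_le_add, ← sub_le_iff_le_add', le_div_iff₀ hden]
      nlinarith [mul_le_mul_of_nonneg_left hle hr0.le]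

theorem desc_ge (q l : ℕ) : 1 - ((l : ℝ) * (l + 1)) / (2 * (q + 1)) ≤
    (l.factorial : ℝ) * (q.choose l : ℝ) / ((q : ℝ) + 1) ^ l := by
  have hq0 : (0 : ℝ) < (q : ℝ) + 1 := by positivity
  induction l with
  | zero => simp
  | succ l ih =>
    rcases Nat.lt_or_ge q l with h | h
    · have h1 : q.choose (l + 1) = 0 := Nat.choose_eq_zero_of_lt (by omega)
      rw [h1]
      simp only [Nat.cast_zero, mul_zero, zero_div]
      rw [sub_nonpos, le_div_iff₀ (by positivity)]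
      have hc : (q : ℝ) + 1 ≤ (l : ℝ) := by exact_mod_cast h
      have hq1 : (0 : ℝ) ≤ (q : ℝ) := Nat.cast_nonneg q
      push_cast
      nlinarith
    · have h1 : ((q.choose (l + 1) : ℕ) : ℝ) * ((l : ℝ) + 1) = (q.choose l : ℝ) * ((q : ℝ) - l) := by
        have h2 := Nat.choose_succ_right_eq q l
        have h3 : ((q - l : ℕ) : ℝ) = (q : ℝ) - l := by rw [Nat.cast_sub h]
        rw [← h3]
        exact_mod_cast h2
      have h4 : ((l + 1).factorial : ℝ) * (q.choose (l + 1) : ℝ) / ((q : ℝ) + 1) ^ (l + 1) =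
          ((l.factorial : ℝ) * (q.choose l : ℝ) / ((q : ℝ) + 1) ^ l) * (1 - ((l : ℝ) + 1) / (q + 1)) := by
        have h5 : ((l + 1).factorial : ℝ) * (q.choose (l + 1) : ℝ) =
            (l.factorial : ℝ) * (q.choose l : ℝ) * ((q : ℝ) - l) := by
          rw [Nat.factorial_succ]
          push_cast
          calc ((l : ℝ) + 1) * (l.factorial : ℝ) * (q.choose (l + 1) : ℝ)
              = (l.factorial : ℝ) * ((q.choose (l + 1) : ℝ) * ((l : ℝ) + 1)) := by ring
            _ = _ := by rw [h1]; ring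
        rw [h5, pow_succ]
        field_simp
        ring
      rw [h4]
      have hl0 : (0 : ℝ) ≤ (l : ℝ) := Nat.cast_nonneg l
      have hlq : (l : ℝ) ≤ (q : ℝ) := by exact_mod_cast h
      have hy : 0 ≤ 1 - ((l : ℝ) + 1) / (q + 1) := by
        rw [sub_nonneg, div_le_one hq0]
        linarith
      have hm := mul_le_mul_of_nonneg_right ih hy
      refine le_trans ?_ hm
      have hx : 0 ≤ ((l : ℝ) * (l + 1)) / (2 * (q + 1)) * (((l : ℝ) + 1) / (q + 1)) := by positivity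
      have e : (1 - ((l : ℝ) * (l + 1)) / (2 * (q + 1))) * (1 - ((l : ℝ) + 1) / (q + 1)) =
          1 - (((l + 1 : ℕ) : ℝ) * (((l + 1 : ℕ) : ℝ) + 1)) / (2 * (q + 1)) +
          ((l : ℝ) * (l + 1)) / (2 * (q + 1)) * (((l : ℝ) + 1) / (q + 1)) := by
        push_cast
        field_simp
        ring
      rw [e]
      linarith

theorem v_le_u {r q l : ℕ} (hr : 1 ≤ r) (hl : (l + 1) * (l + 2) ≤ q + 1) {d : ℝ} (hd : 0 ≤ d) :
    d / (r * r.factorial * ((l : ℝ) + 1) * Ph r q (l + 1)) ≤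
      (1 + ((l : ℝ) + 1) * (l + 2) / (q + 1)) * (d * l.factorial /
        (r * (r.factorial : ℝ) ^ (q + 1) * (((q : ℝ) + 1) * r) ^ (l + 1))) := by
  have hq0 : (0 : ℝ) < (q : ℝ) + 1 := by positivity
  have hr0 : (0 : ℝ) < (r : ℝ) := by exact_mod_cast hr
  have hf0 : (0 : ℝ) < (r.factorial : ℝ) := by exact_mod_cast Nat.factorial_pos r
  have hlq : l + 1 ≤ q := by nlinarith
  have hP : 0 < Ph r q (l + 1) := Ph_pos hr hlq
  set y : ℝ := ((l : ℝ) + 1) * (l + 2) / (q + 1) with hy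
  have hy0 : 0 ≤ y := by rw [hy]; positivity
  have hy1 : y ≤ 1 := by
    rw [hy, div_le_one hq0]
    exact_mod_cast hl
  have hd1 := desc_ge q (l + 1)
  have e1 : 1 - (((l + 1 : ℕ) : ℝ) * (((l + 1 : ℕ) : ℝ) + 1)) / (2 * (q + 1)) = 1 - y / 2 := by
    rw [hy]
    push_cast
    field_simp
    ring
  rw [e1, le_div_iff₀ (by positivity)] at hd1
  have hlow := Ph_lower hr q (l + 1)
  have hkey : (r.factorial : ℝ) ^ q * (((q : ℝ) + 1) * r) ^ (l + 1) ≤
      (1 + y) * ((l + 1).factorial : ℝ) * Ph r q (l + 1) := by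
    have hB : 0 ≤ (r.factorial : ℝ) ^ q * (r : ℝ) ^ (l + 1) := by positivity
    have hC : 0 ≤ (1 + y) * ((l + 1).factorial : ℝ) := by positivity
    have s1 := mul_le_mul_of_nonneg_left hlow hC
    refine le_trans ?_ s1
    have s2 : ((q : ℝ) + 1) ^ (l + 1) ≤ (1 + y) * ((l + 1).factorial * (q.choose (l + 1) : ℝ)) := by
      have s3 := mul_le_mul_of_nonneg_left hd1 (by linarith : (0 : ℝ) ≤ 1 + y)
      refine le_trans ?_ s3
      have s4 : 1 ≤ (1 + y) * (1 - y / 2) := by nlinarith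
      have s5 : 0 ≤ ((q : ℝ) + 1) ^ (l + 1) := by positivity
      nlinarith [mul_le_mul_of_nonneg_right s4 s5]
    calc (r.factorial : ℝ) ^ q * (((q : ℝ) + 1) * r) ^ (l + 1)
        = (r.factorial : ℝ) ^ q * (r : ℝ) ^ (l + 1) * ((q : ℝ) + 1) ^ (l + 1) := by
          rw [mul_pow]
          ring
      _ ≤ (r.factorial : ℝ) ^ q * (r : ℝ) ^ (l + 1) *
          ((1 + y) * ((l + 1).factorial * (q.choose (l + 1) : ℝ))) :=
          mul_le_mul_of_nonneg_left s2 hB
      _ = _ := by ring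
  rw [← mul_div_assoc, div_le_div_iff₀ (by positivity) (by positivity)]
  have hE : 0 ≤ d * (r : ℝ) * (r.factorial : ℝ) := by positivity
  have s6 := mul_le_mul_of_nonneg_left hkey hE
  rw [Nat.factorial_succ] at s6
  push_cast at s6
  calc d * ((r : ℝ) * (r.factorial : ℝ) ^ (q + 1) * (((q : ℝ) + 1) * r) ^ (l + 1))
      = d * (r : ℝ) * (r.factorial : ℝ) *
        ((r.factorial : ℝ) ^ q * (((q : ℝ) + 1) * r) ^ (l + 1)) := by
        rw [pow_succ]
        ring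
    _ ≤ _ := s6
    _ = _ := by ring

end Pool.Agent.Lib.MP_eeed5c_coU
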