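import Mathlib

/-!
# Growth of sequences

PROOFS.
* `grow_iter`: Induction on `j ≤ m`: for `l < m`,
  `u (l+j) ≥ ((l+1)/(l+j+1)) (1 - S_j) u l`, `S_j = ∑_{i=l}^{l+j-1} (i + 13/4)/(q+1) =
  (j l + j (j-1)/2 + 13 j/4)/(q+1) ≤ 1`. Step: `hg` for `i = l + j` reads
  `u (i+1) ≥ (i+1)/(i+3/2) * (1 - (i + 13/4)/(q+1)) u i` with
  `(i+1)/(i+3/2) ≥ (i+1)/(i+2)` and `(1 - y)(1 - S) ≥ 1 - y - S`. For `j = m`:
  `(l+1)/(l+m+1) (1 - S_m) ≥ (l+1)(l+2)/(q+1)` iff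
  `(q+1) - (m l + m(m-1)/2 + 13m/4) ≥ (l+2)(l+m+1)`, which for `l ≤ m-1` follows from
  `7m²/2 + 15m/4 ≤ (2m+1)² ≤ q+1`.
* `sum_main`: `∑_{l<m} v l ≤ ∑_{l<m} (1 + (l+1)(l+2)/(q+1)) u l ≤ ∑_{l<m} (u l + u (l+m)) =
  ∑_{l<2m} u l` (`sum_range_add`, `two_mul`).
-/

set_option autoImplicit false

namespace Pool.Agent.Lib.MP_eeed5c_coU

open Finset

theorem grow_iter {q m : ℕ} {u : ℕ → ℝ} (hu : ∀ l, 0 ≤ u l) (hm : (2 * m + 1) ^ 2 ≤ q + 1)
    (hg : ∀ l, l + 1 < 2 * m →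
      ((l : ℝ) + 1) * ((q : ℝ) - l - 9 / 4) * u l ≤ (l + 3 / 2) * ((q : ℝ) + 1) * u (l + 1))
    {l : ℕ} (hl : l < m) : ((l : ℝ) + 1) * (l + 2) / (q + 1) * u l ≤ u (l + m) := by
  have hQ : (0 : ℝ) < (q : ℝ) + 1 := by positivity
  have hmR : (2 * (m : ℝ) + 1) ^ 2 ≤ (q : ℝ) + 1 := by exact_mod_cast hm
  have hm1 : (1 : ℝ) ≤ m := by exact_mod_cast (show 1 ≤ m by omega)
  have hlR : (l : ℝ) + 1 ≤ m := by exact_mod_cast hl
  have hl0 : (0 : ℝ) ≤ l := Nat.cast_nonneg l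
  have key : ∀ j : ℕ, j ≤ m → ((l : ℝ) + 1) *
      (((q : ℝ) + 1) - ((j : ℝ) * l + j * (j - 1) / 2 + 13 * j / 4)) * u l ≤
      ((l : ℝ) + j + 1) * ((q : ℝ) + 1) * u (l + j) := by
    intro j
    induction j with
    | zero =>
      intro _
      simp
    | succ j ih =>
      intro hj
      have h1 := ih (by omega)
      have h2 := hg (l + j) (by omega)
      push_cast at h2 ⊢
      have hj0 : (0 : ℝ) ≤ j := Nat.cast_nonneg j
      have hjm : (j : ℝ) + 1 ≤ m := by exact_mod_cast hj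
      have hu1 := hu (l + (j + 1))
      have hu0 := hu l
      have hui := hu (l + j)
      have hy : 0 ≤ ((q : ℝ) + 1) - ((l : ℝ) + j + 13 / 4) := by nlinarith
      have hs : 0 ≤ (j : ℝ) * l + j * (j - 1) / 2 + 13 * j / 4 := by
        have e1 : (j : ℝ) * l + j * (j - 1) / 2 + 13 * j / 4 = j * l + j * j / 2 + 11 * j / 4 := by ring
        rw [e1]
        positivity
      -- Q * (i + 1) (Q - y) u_i ≥ (l + 1) Q (Q - y - s) u_l
      have h3 := mul_le_mul_of_nonneg_left h1 hy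
      have h4 : ((l : ℝ) + 1) * (((q : ℝ) + 1) *
          (((q : ℝ) + 1) - ((l : ℝ) + j + 13 / 4) - ((j : ℝ) * l + j * (j - 1) / 2 + 13 * j / 4))) * u l ≤
          (((q : ℝ) + 1) - ((l : ℝ) + j + 13 / 4)) * (((l : ℝ) + 1) *
          (((q : ℝ) + 1) - ((j : ℝ) * l + j * (j - 1) / 2 + 13 * j / 4)) * u l) := by
        have e2 : (((q : ℝ) + 1) - ((l : ℝ) + j + 13 / 4)) * (((l : ℝ) + 1) *
            (((q : ℝ) + 1) - ((j : ℝ) * l + j * (j - 1) / 2 + 13 * j / 4)) * u l) -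
            ((l : ℝ) + 1) * (((q : ℝ) + 1) *
            (((q : ℝ) + 1) - ((l : ℝ) + j + 13 / 4) - ((j : ℝ) * l + j * (j - 1) / 2 + 13 * j / 4))) * u l =
            ((l : ℝ) + 1) * (((l : ℝ) + j + 13 / 4) * ((j : ℝ) * l + j * (j - 1) / 2 + 13 * j / 4)) * u l := by ring
        have e3 : 0 ≤ ((l : ℝ) + 1) * (((l : ℝ) + j + 13 / 4) * ((j : ℝ) * l + j * (j - 1) / 2 + 13 * j / 4)) * u l := by
          have e4 : (0 : ℝ) ≤ (l : ℝ) + j + 13 / 4 := by positivity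
          exact mul_nonneg (mul_nonneg (by positivity) (mul_nonneg e4 hs)) hu0
        linarith
      have h5 : ((q : ℝ) + 1) * (((l : ℝ) + 1) *
          (((q : ℝ) + 1) - ((l : ℝ) + j + 13 / 4) - ((j : ℝ) * l + j * (j - 1) / 2 + 13 * j / 4)) * u l) ≤
          ((q : ℝ) + 1) * (((l : ℝ) + j + 1) * (((q : ℝ) + 1) - ((l : ℝ) + j + 13 / 4)) * u (l + j)) := by
        refine le_trans (le_of_eq ?_) ((h4.trans h3).trans (le_of_eq ?_)) <;> ring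
      have h6 := le_of_mul_le_mul_left h5 hQ
      have h7 : ((l : ℝ) + j + 1) * (((q : ℝ) + 1) - ((l : ℝ) + j + 13 / 4)) * u (l + j) ≤
          ((l : ℝ) + j + 3 / 2) * ((q : ℝ) + 1) * u (l + (j + 1)) := by
        refine le_trans (le_of_eq ?_) h2
        ring
      have h8 : ((l : ℝ) + j + 3 / 2) * ((q : ℝ) + 1) * u (l + (j + 1)) ≤
          ((l : ℝ) + (j + 1) + 1) * ((q : ℝ) + 1) * u (l + (j + 1)) := by
        have e5 : (0 : ℝ) ≤ ((q : ℝ) + 1) * u (l + (j + 1)) := mul_nonneg hQ.le hu1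
        nlinarith
      refine le_trans (le_of_eq ?_) ((h6.trans h7).trans h8)
      ring
  have h9 := key m le_rfl
  have h10 : ((l : ℝ) + 2) * (l + m + 1) ≤ ((q : ℝ) + 1) - ((m : ℝ) * l + m * (m - 1) / 2 + 13 * m / 4) := by
    nlinarith [mul_le_mul_of_nonneg_left hlR hl0, mul_le_mul_of_nonneg_left hlR (by linarith : (0 : ℝ) ≤ m)]
  have h11 : ((l : ℝ) + m + 1) * ((l + 1) * (l + 2) * u l) ≤ ((l : ℝ) + m + 1) * (((q : ℝ) + 1) * u (l + m)) := by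
    have e1 : ((l : ℝ) + 1) * (((l : ℝ) + 2) * (l + m + 1)) * u l ≤
        ((l : ℝ) + 1) * (((q : ℝ) + 1) - ((m : ℝ) * l + m * (m - 1) / 2 + 13 * m / 4)) * u l :=
      mul_le_mul_of_nonneg_right (mul_le_mul_of_nonneg_left h10 (by positivity)) (hu l)
    refine le_trans (le_of_eq ?_) ((e1.trans h9).trans (le_of_eq ?_)) <;> ring
  have h12 := le_of_mul_le_mul_left h11 (by positivity : (0 : ℝ) < (l : ℝ) + m + 1)
  rw [div_mul_eq_mul_div, div_le_iff₀ hQ]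
  linarith

theorem sum_main {q m : ℕ} {u v : ℕ → ℝ} (hu : ∀ l, 0 ≤ u l) (hm : (2 * m + 1) ^ 2 ≤ q + 1)
    (hg : ∀ l, l + 1 < 2 * m →
      ((l : ℝ) + 1) * ((q : ℝ) - l - 9 / 4) * u l ≤ (l + 3 / 2) * ((q : ℝ) + 1) * u (l + 1))
    (hv : ∀ l, l < m → v l ≤ (1 + ((l : ℝ) + 1) * (l + 2) / (q + 1)) * u l) :
    ∑ l ∈ range m, v l ≤ ∑ l ∈ range (2 * m), u l := by
  rw [two_mul, Finset.sum_range_add, ← Finset.sum_add_distrib]
  refine Finset.sum_le_sum fun l hl => ?_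
  rw [Finset.mem_range] at hl
  have h1 := hv l hl
  have h2 := grow_iter hu hm hg hl
  rw [add_comm m l]
  have h3 : (1 + ((l : ℝ) + 1) * (l + 2) / (q + 1)) * u l = u l + ((l : ℝ) + 1) * (l + 2) / (q + 1) * u l := by ring
  linarith

end Pool.Agent.Lib.MP_eeed5c_coU
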