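import Pool.Agent.Lib.MP_eeed5c_co_U.TGb
import Pool.Agent.Lib.MP_eeed5c_co_U.THa
import Pool.Agent.Lib.MP_eeed5c_co_U.THb

/-!
# The largest matchings

PROOF of `top_of`. `hD` gives `0 ≤ (DP r q G).coeff l` for all `l` (`DP_coeff`, `DP_coeff_high`). Put
`m = q r - k`, `n = q r`, `E t = Ph r q t - Mh n G t`, `c = 1 - Mh n G 0 / r!^q`,
`u l = (DP r q G).coeff l * l! / (r r!^(q+1) ((q+1) r)^(l+1))`,
`v l = Dh r q G l / (r r! (l+1) Ph r q (l+1))`. Since `(2m+1)^2 ≤ q+1`: `m ≤ q`, `2 m + 1 ≤ q + 1 ≤ q r`.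
`c_lower` with `J = 2 m`: `∑_{l<2m} u l ≤ c`. `v_le_u` for `l < m` (`(l+1)(l+2) ≤ m (m+1) ≤ q+1`; use
`DP_coeff`, `l + 2 ≤ q r + r`). `hg` of `sum_main` for `l + 1 < 2 m`: `l + 3 ≤ 2m + 1 ≤ q r` and `hG`:
`(q r - r (l + 9/4)) D_l ≤ (l + 3/2) D_(l+1)`, i.e. after division by
`r` and multiplication with the constants
`(l+1) (q - l - 9/4) u_l ≤ (l+3/2) (q+1) u_(l+1)` (`u_(l+1) / u_l = (D_(l+1)/D_l) (l+1) / ((q+1) r)`).
So `∑_{l<m} v l ≤ c` (`sum_main`), and `seqE` (with `Dl = Dh r q G`, `h2 = Eh_rec`, `hc`: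
`c * r!^q = r!^q - Mh n G 0 = E 0` by `Ph_zero`) gives `0 ≤ Ph r q m (c - ∑ v) ≤ E m`, i.e.
`Mh n G m ≤ Ph r q m`, which is the claim (`n - m = k`). For `seqE` only `l < q` is needed:
`l + 2 ≤ q + 1 ≤ q r + r`.
-/

set_option autoImplicit false

namespace Pool.Agent.Lib.MP_eeed5c_coU

open Finset Pool.Agent.Lib.MP_eeed5c_co Pool.Agent.Lib.MP_eeed5c_coT

theorem top_of {V : Type*} [Fintype V] {G : SimpleGraph V} {q r k : ℕ} (hr : 2 ≤ r)
    (hq : 1 ≤ q) (hV : Fintype.card V = 2 * (q * r)) (hreg : Reg G r)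
    (hD : ∀ l, 0 ≤ Dh r q G l)
    (hG : ∀ l, l + 3 ≤ q * r →
      ((q : ℝ) * r - r * (l + 9 / 4)) * Dh r q G l ≤ (l + 3 / 2) * Dh r q G (l + 1))
    (hk : k ≤ q * r) (hm : (2 * (q * r - k) + 1) ^ 2 ≤ q + 1) :
    ((mats G k).card : ℝ) ≤ T r q k := by
  obtain ⟨m, hmdef⟩ : ∃ m, m = q * r - k := ⟨_, rfl⟩
  rw [← hmdef] at hm
  have hr1 : 1 ≤ r := by omega
  have hqr : q ≤ q * r := Nat.le_mul_of_pos_right q (by omega)
  have hmq : m ≤ q := by nlinarith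
  have hmn : m ≤ q * r := hmq.trans hqr
  have hD' : ∀ l, 0 ≤ (DP r q G).coeff l := by
    intro l
    by_cases hl : l + 2 ≤ q * r + r
    · rw [DP_coeff hV hl]
      exact hD l
    · rw [DP_coeff_high hV (by omega)]
  have hDco : ∀ l, l < q → (DP r q G).coeff l = Dh r q G l := fun l hl => DP_coeff hV (by omega)
  have hfac : (0 : ℝ) < (r.factorial : ℝ) := Nat.cast_pos.2 (Nat.factorial_pos r)
  have hr0 : (0 : ℝ) < (r : ℝ) := Nat.cast_pos.2 (by omega)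
  have hq0 : (0 : ℝ) < (q : ℝ) + 1 := by positivity
  have hu0 : ∀ l, 0 ≤ (DP r q G).coeff l * l.factorial /
      (r * (r.factorial : ℝ) ^ (q + 1) * (((q : ℝ) + 1) * r) ^ (l + 1)) := by
    intro l
    have h1 := hD' l
    positivity
  have hv : ∀ l, l < m → Dh r q G l / (r * r.factorial * ((l : ℝ) + 1) * Ph r q (l + 1)) ≤
      (1 + ((l : ℝ) + 1) * (l + 2) / (q + 1)) * ((DP r q G).coeff l * l.factorial /
        (r * (r.factorial : ℝ) ^ (q + 1) * (((q : ℝ) + 1) * r) ^ (l + 1))) := by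
    intro l hl
    rw [hDco l (by omega)]
    refine v_le_u hr1 ?_ (hD l)
    have h1 : (l + 1) * (l + 2) ≤ (2 * m + 1) * (2 * m + 1) := Nat.mul_le_mul (by omega) (by omega)
    nlinarith
  have hg : ∀ l, l + 1 < 2 * m →
      ((l : ℝ) + 1) * ((q : ℝ) - l - 9 / 4) * ((DP r q G).coeff l * l.factorial /
        (r * (r.factorial : ℝ) ^ (q + 1) * (((q : ℝ) + 1) * r) ^ (l + 1))) ≤
      (l + 3 / 2) * ((q : ℝ) + 1) * ((DP r q G).coeff (l + 1) * (l + 1).factorial /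
        (r * (r.factorial : ℝ) ^ (q + 1) * (((q : ℝ) + 1) * r) ^ (l + 1 + 1))) := by
    intro l hl
    have h1 : 2 * m + 1 ≤ q := by nlinarith
    rw [hDco l (by omega), hDco (l + 1) (by omega)]
    obtain ⟨κ, hκ⟩ : ∃ κ : ℝ, κ = (l.factorial : ℝ) /
        (r * (r.factorial : ℝ) ^ (q + 1) * (((q : ℝ) + 1) * r) ^ (l + 1 + 1)) := ⟨_, rfl⟩
    have hκ0 : 0 ≤ κ := by
      rw [hκ]
      positivity
    have h2 : Dh r q G l * l.factorial /
        (r * (r.factorial : ℝ) ^ (q + 1) * (((q : ℝ) + 1) * r) ^ (l + 1)) =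
        Dh r q G l * (κ * (((q : ℝ) + 1) * r)) := by
      rw [hκ, pow_succ _ (l + 1)]
      field_simp
    have h3 : Dh r q G (l + 1) * (l + 1).factorial /
        (r * (r.factorial : ℝ) ^ (q + 1) * (((q : ℝ) + 1) * r) ^ (l + 1 + 1)) =
        Dh r q G (l + 1) * (κ * ((l : ℝ) + 1)) := by
      rw [hκ, Nat.factorial_succ, Nat.cast_mul, Nat.cast_add, Nat.cast_one]
      ring
    rw [h2, h3]
    have h4 := mul_le_mul_of_nonneg_left (hG l (by omega))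
      (show 0 ≤ κ * ((l : ℝ) + 1) * ((q : ℝ) + 1) by positivity)
    nlinarith
  have hsum := sum_main hu0 hm hg hv
  have hc := c_lower hr1 hV hreg hD' (2 * m)
  have hE := seqE hr1 hD (E := fun t => Ph r q t - Mh (q * r) G t)
    (c := 1 - Mh (q * r) G 0 / (r.factorial : ℝ) ^ q)
    (fun l hl => Eh_rec hV (by omega)) (by
      rw [Ph_zero]
      have h5 : (0 : ℝ) < (r.factorial : ℝ) ^ q := by positivity
      rw [sub_mul, one_mul, div_mul_cancel₀ _ h5.ne']) m hmq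
  have h6 : 0 ≤ Ph r q m * (1 - Mh (q * r) G 0 / (r.factorial : ℝ) ^ q - ∑ l ∈ range m,
      Dh r q G l / (r * r.factorial * ((l : ℝ) + 1) * Ph r q (l + 1))) :=
    mul_nonneg (Ph_nonneg r q m) (sub_nonneg.2 (hsum.trans hc))
  have h7 : 0 ≤ Ph r q m - Mh (q * r) G m := h6.trans hE
  have hnm : q * r - m = k := by omega
  unfold Ph Mh at h7
  rw [if_pos hmn, if_pos hmn, hnm] at h7
  linarith

end Pool.Agent.Lib.MP_eeed5c_coU
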