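import Pool.Agent.Lib.MP_eeed5c_co_M.MB
import Pool.Agent.Lib.MP_eeed5c_co_N.TD2
import Pool.Agent.Lib.MP_eeed5c_co_U.TI

/-!
# All degrees

The largest matchings (`main_top`), and all matchings when `q` is at least a power of the logarithm
of `r` (`main_log`, `main_q`).
-/

set_option autoImplicit false

namespace Pool.Agent.Lib.MP_eeed5c_coU

open Finset Pool.Agent.Lib.MP_eeed5c_co Pool.Agent.Lib.MP_eeed5c_coT Pool.Agent.Lib.MP_eeed5c_coM

theorem main_top {q r k : ℕ} {V : Type} [Fintype V] {G : SimpleGraph V}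
    (hV : Fintype.card V = 2 * (q * r)) (hreg : Reg G r) (hk : k ≤ q * r)
    (hm : (2 * (q * r - k) + 1) ^ 2 ≤ q + 1) :
    (mats G k).card ≤ (mats (KK q r) k).card := by
  rcases small_or (k := k) hV hreg with h | ⟨_, _, _, hr2, hq1⟩
  · exact h
  have h := top_of hr2 hq1 hV hreg (fun l => Pool.Agent.Lib.MP_eeed5c_coN.Dh_nonneg hr2 hV hreg l)
    (fun l hl => Pool.Agent.Lib.MP_eeed5c_coN.Dh_growth hr2 hV hreg hl) hk hm
  rw [← card_mats_KK] at h
  exact_mod_cast h

theorem main_log {q r k : ℕ} {V : Type} [Fintype V] {G : SimpleGraph V}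
    (hV : Fintype.card V = 2 * (q * r)) (hreg : Reg G r)
    (hq : 3000000000000000000000 * Lq q r ^ 10 ≤ q) :
    (mats G k).card ≤ (mats (KK q r) k).card := by
  rcases small_or (k := k) hV hreg with h | ⟨_, hkn, _, hr2, hq1⟩
  · exact h
  by_cases hmid : 23000000000 * Lq q r ^ 5 ≤ (q : ℝ) * r - k
  · exact main_mid hV hreg hmid
  push Not at hmid
  refine main_top hV hreg hkn ?_
  have hL : 14 ≤ Lq q r := by
    unfold Lq
    have hr' : (1 : ℝ) ≤ r := by
      have : (2 : ℝ) ≤ r := by exact_mod_cast hr2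
      linarith
    have h1 : 0 ≤ Real.log r := Real.log_nonneg hr'
    have h2 : 0 ≤ Real.log ((q : ℝ) * r + 1) := Real.log_nonneg (by
      have : (0 : ℝ) ≤ (q : ℝ) * r := by positivity
      linarith)
    have h3 : 0 ≤ Real.log (7 + 6 * Real.log ((q : ℝ) * r + 1)) := Real.log_nonneg (by linarith)
    linarith
  have hL5 : (1 : ℝ) ≤ Lq q r ^ 5 := one_le_pow₀ (by linarith)
  obtain ⟨m, hm⟩ : ∃ m : ℕ, m = q * r - k := ⟨_, rfl⟩
  have hm' : (m : ℝ) = (q : ℝ) * r - k := by
    rw [hm, Nat.cast_sub hkn]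
    push_cast
    ring
  rw [← hm]
  have hmr : ((2 * m + 1) ^ 2 : ℝ) ≤ (q : ℝ) + 1 := by
    have h1 : (m : ℝ) ≤ 23000000000 * Lq q r ^ 5 := by rw [hm']; exact hmid.le
    have h0 : (0 : ℝ) ≤ m := Nat.cast_nonneg m
    have h2 : (2 * m + 1 : ℝ) ≤ 46000000001 * Lq q r ^ 5 := by linarith
    have h3 : ((2 * m + 1) ^ 2 : ℝ) ≤ (46000000001 * Lq q r ^ 5) ^ 2 :=
      pow_le_pow_left₀ (by linarith) h2 2
    have h4 : (46000000001 * Lq q r ^ 5) ^ 2 ≤ 3000000000000000000000 * Lq q r ^ 10 := by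
      have : (46000000001 * Lq q r ^ 5) ^ 2 = 46000000001 ^ 2 * Lq q r ^ 10 := by ring
      rw [this]
      refine mul_le_mul_of_nonneg_right (by norm_num) (by positivity)
    linarith
  exact_mod_cast hmr

theorem TJ_num {q r : ℕ} (hr : 2 ≤ r)
    (hq : 1000000000000000000000000000000000000 * (1 + Real.log r) ^ 10 ≤ q) :
    3000000000000000000000 * Lq q r ^ 10 ≤ q := by
  have hr1 : (1 : ℝ) ≤ r := by
    have : (2 : ℝ) ≤ r := by exact_mod_cast hr
    linarith
  have hr0 : (0 : ℝ) < r := by linarith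
  obtain ⟨y, hy⟩ : ∃ y, y = Real.log r := ⟨_, rfl⟩
  have hy0 : 0 ≤ y := by rw [hy]; exact Real.log_nonneg hr1
  rw [← hy] at hq
  have hq1 : (1 : ℝ) ≤ q := by
    have : (1 : ℝ) ≤ (1 + y) ^ 10 := one_le_pow₀ (by linarith)
    linarith
  have hq0 : (0 : ℝ) < q := by linarith
  obtain ⟨S, hS0, hS⟩ : ∃ S : ℝ, 0 ≤ S ∧ S ^ 10 = q / 3000000000000000000000 := by
    refine ⟨((q : ℝ) / 3000000000000000000000) ^ ((1 : ℝ) / 10), Real.rpow_nonneg (by positivity) _, ?_⟩
    rw [← Real.rpow_natCast, ← Real.rpow_mul (by positivity)]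
    norm_num
  have hS28 : 28 * (1 + y) ≤ S := by
    by_contra hcon
    push Not at hcon
    have h1 : S ^ 10 < (28 * (1 + y)) ^ 10 := pow_lt_pow_left₀ hcon hS0 (by norm_num)
    have h2 : (28 * (1 + y)) ^ 10 = 28 ^ 10 * (1 + y) ^ 10 := by ring
    have h3 : (0 : ℝ) < (1 + y) ^ 10 := by positivity
    rw [hS, h2, div_lt_iff₀ (by norm_num)] at h1
    nlinarith
  have hS1 : (28 : ℝ) ≤ S := by linarith
  have hSpos : 0 < S := by linarith
  have hqS : (q : ℝ) = 3000000000000000000000 * S ^ 10 := by rw [hS]; field_simp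
  -- log S ≤ S / 28 + 2.34
  have hlog28 : Real.log 28 ≤ 3.4 := by
    have h2 := Real.log_two_lt_d9
    have : Real.log 28 ≤ Real.log (2 ^ 5) / 1 := by
      rw [div_one]
      exact Real.log_le_log (by norm_num) (by norm_num)
    have h3 : Real.log (2 ^ 5 : ℝ) = 5 * Real.log 2 := by rw [Real.log_pow]; norm_num
    have h4 : Real.log (28 : ℝ) = Real.log (2 ^ 5 * (7 / 8)) := by norm_num
    have h5 : Real.log (2 ^ 5 * (7 / 8) : ℝ) = 5 * Real.log 2 + Real.log (7 / 8) := by
      rw [Real.log_mul (by norm_num) (by norm_num), h3]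
    have h6 : Real.log (7 / 8 : ℝ) ≤ 7 / 8 - 1 := Real.log_le_sub_one_of_pos (by norm_num)
    rw [h4, h5]
    linarith
  have hlogS : Real.log S ≤ S / 28 + 2.4 := by
    have h1 : Real.log (S / 28) ≤ S / 28 - 1 := Real.log_le_sub_one_of_pos (by positivity)
    rw [Real.log_div (by positivity) (by norm_num)] at h1
    linarith
  -- the logarithm of q r + 1
  have hlog3 : Real.log 3000000000000000000000 ≤ 50 := by
    have h2 := Real.log_two_lt_d9
    have h1 : Real.log 3000000000000000000000 ≤ Real.log (2 ^ 72) :=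
      Real.log_le_log (by norm_num) (by norm_num)
    rw [Real.log_pow] at h1
    push_cast at h1
    linarith
  have hlogq : Real.log q ≤ 50 + 10 * Real.log S := by
    rw [hqS, Real.log_mul (by norm_num) (by positivity), Real.log_pow]
    push_cast
    linarith
  have hlogqr : Real.log ((q : ℝ) * r + 1) ≤ 51 + 10 * Real.log S + y := by
    have hqr : (1 : ℝ) ≤ q * r := by nlinarith
    have h1 : Real.log ((q : ℝ) * r + 1) ≤ Real.log (2 * ((q : ℝ) * r)) :=
      Real.log_le_log (by positivity) (by linarith)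
    rw [Real.log_mul (by norm_num) (by positivity), Real.log_mul (by positivity) (by positivity),
      ← hy] at h1
    have h2 := Real.log_two_lt_d9
    linarith
  have hlogS0 : 0 ≤ Real.log S := Real.log_nonneg (by linarith)
  have hlogSS : Real.log S ≤ S - 1 := Real.log_le_sub_one_of_pos hSpos
  have hin : 7 + 6 * Real.log ((q : ℝ) * r + 1) ≤ 80 * S := by linarith
  have hpos : 0 < 7 + 6 * Real.log ((q : ℝ) * r + 1) := by
    have : 0 ≤ Real.log ((q : ℝ) * r + 1) := Real.log_nonneg (by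
      have : (0 : ℝ) ≤ (q : ℝ) * r := by positivity
      linarith)
    linarith
  have hout : Real.log (7 + 6 * Real.log ((q : ℝ) * r + 1)) ≤ 4.5 + Real.log S := by
    have h1 : Real.log (7 + 6 * Real.log ((q : ℝ) * r + 1)) ≤ Real.log (80 * S) :=
      Real.log_le_log hpos hin
    rw [Real.log_mul (by norm_num) (by positivity)] at h1
    have h80 : Real.log 80 ≤ 4.5 := by
      have h2 := Real.log_two_lt_d9
      have h3 : Real.log (80 : ℝ) = Real.log (2 ^ 6 * (5 / 4)) := by norm_num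
      have h4 : Real.log (2 ^ 6 * (5 / 4) : ℝ) = 6 * Real.log 2 + Real.log (5 / 4) := by
        rw [Real.log_mul (by norm_num) (by norm_num), Real.log_pow]
        norm_num
      have h5 : Real.log (5 / 4 : ℝ) ≤ 5 / 4 - 1 := Real.log_le_sub_one_of_pos (by norm_num)
      rw [h3, h4]
      linarith
    linarith
  have hL : Lq q r ≤ S := by
    unfold Lq
    rw [← hy]
    linarith
  have hL0 : 0 ≤ Lq q r := (MB_Lq_pos hr).le
  rw [hqS]
  exact mul_le_mul_of_nonneg_left (pow_le_pow_left₀ hL0 hL 10) (by norm_num)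

theorem main_q {q r k : ℕ} {V : Type} [Fintype V] {G : SimpleGraph V}
    (hV : Fintype.card V = 2 * (q * r)) (hreg : Reg G r)
    (hq : 1000000000000000000000000000000000000 * (1 + Real.log r) ^ 10 ≤ q) :
    (mats G k).card ≤ (mats (KK q r) k).card := by
  rcases small_or (k := k) hV hreg with h | ⟨_, _, _, hr2, _⟩
  · exact h
  exact main_log hV hreg (TJ_num hr2 hq)

end Pool.Agent.Lib.MP_eeed5c_coU
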